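import Mathlib

/-! Triple systems, uncountable chromatic number, forced finite triple systems, and the class
`Good` of triple systems glued from expansions of bipartite graphs. -/

set_option autoImplicit false

universe u v w

namespace Pool.Agent.H54.TS

/-- A triple system (3-uniform hypergraph) with vertex set `V`: a set of 3-element subsets
of `V`. -/
structure TripleSystem (V : Type u) where
  triples : Set (Finset V)
  card_eq : ∀ t ∈ triples, t.card = 3

/-- `c : V → C` is a proper colouring: no triple is monochromatic. -/
def TripleSystem.Proper {V : Type u} {C : Type v} (K : TripleSystem V) (c : V → C) : Prop :=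
  ∀ t ∈ K.triples, ¬ ∃ a : C, ∀ x ∈ t, c x = a

/-- The chromatic number: the least cardinality of a set of colours which admits a proper
colouring. -/
noncomputable def TripleSystem.chromaticNumber {V : Type u} (K : TripleSystem V) :
    Cardinal.{u} :=
  sInf {κ | ∃ C : Type u, Cardinal.mk C = κ ∧ ∃ c : V → C, K.Proper c}

/-- The chromatic number is greater than `ℵ₀`. -/
def TripleSystem.UncountablyChromatic {V : Type u} (K : TripleSystem V) : Prop :=
  Cardinal.aleph0 < K.chromaticNumber

/-- `F` appears in `K`: there is an injection of the vertices which maps every triple of `F` to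
a triple of `K`. -/
def TripleSystem.Appears {W : Type v} {V : Type u} (F : TripleSystem W) (K : TripleSystem V) :
    Prop :=
  ∃ φ : W ↪ V, ∀ t ∈ F.triples, t.map φ ∈ K.triples

/-- `F` is forced: it appears in every uncountably chromatic triple system. -/
def TripleSystem.Forced {W : Type v} (F : TripleSystem W) : Prop :=
  ∀ (V : Type u) (K : TripleSystem V), K.UncountablyChromatic → F.Appears K

/-- The vertices covered by a set of triples. -/
def support {W : Type v} (D : Set (Finset W)) : Set W := {x | ∃ t ∈ D, x ∈ t}

/-- Any two different members of `D` share at most one vertex. -/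
def Linear {W : Type v} (D : Set (Finset W)) : Prop :=
  ∀ t ∈ D, ∀ t' ∈ D, ∀ x y, x ≠ y → x ∈ t → y ∈ t → x ∈ t' → y ∈ t' → t = t'

/-- `D` is an expansion of a bipartite graph: there is a partition of the vertices into three
classes `0, 1, 2` such that every triple has at most one vertex in each class (so exactly one,
for a 3-element triple), every vertex of class `2` lies in at most one triple, and different
triples share at most one vertex. (The graph has the edges `t ∖ {the vertex of class 2}`.) -/
def BipExp {W : Type v} (D : Set (Finset W)) : Prop :=
  ∃ r : W → Fin 3, (∀ t ∈ D, Set.InjOn r (t : Set W)) ∧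
    (∀ t ∈ D, ∀ t' ∈ D, ∀ z, z ∈ t → z ∈ t' → r z = 2 → t = t') ∧ Linear D

/-- The smallest class of triple systems which contains the expansions of bipartite graphs and
which is closed under unions of two systems with at most one common vertex. -/
inductive Good {W : Type v} : Set (Finset W) → Prop
  | expansion (D : Set (Finset W)) : BipExp D → Good D
  | glue (D₁ D₂ : Set (Finset W)) : Good D₁ → Good D₂ →
      (support D₁ ∩ support D₂).Subsingleton → Good (D₁ ∪ D₂)

/-- No proper colouring with colours in `ℕ`. -/
def TripleSystem.Unc {V : Type u} (K : TripleSystem V) : Prop := ¬ ∃ c : V → ℕ, K.Proper c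

open Classical in
/-- `K` contains the grid `K_{N,N}^+`. -/
def HasGrid {V : Type u} (K : TripleSystem V) (N : ℕ) : Prop :=
  ∃ (a b : Fin N → V) (c : Fin N → Fin N → V),
    Function.Injective (Sum.elim a (Sum.elim b (fun p : Fin N × Fin N => c p.1 p.2))) ∧
    ∀ i j, ({a i, b j, c i j} : Finset V) ∈ K.triples

/-- Slices: a slice is the empty sequence `base` or a sequence whose `n`-th entry is either
nothing or `(p n, q n, s n)` with `s n` another slice. -/
inductive Sl (Ω : Type u) : Type u
  | base : Sl Ω
  | node (d : ℕ → Bool) (p q : ℕ → Ω) (s : ℕ → Sl Ω) : Sl Ω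

/-- The `n`-th entry of a slice. -/
def Sl.ent {Ω : Type u} : Sl Ω → ℕ → Option (Ω × Ω × Sl Ω)
  | .base, _ => none
  | .node d p q s, n => if d n then some (p n, q n, s n) else none

open Classical in
/-- The triples of the slice system of a graph `G`. -/
def sliceTriples {Ω : Type u} (G : SimpleGraph Ω) : Set (Finset (Ω × Sl Ω)) :=
  {t | ∃ (n : ℕ) (p q r : Ω) (b' b : Sl Ω), b.ent n = some (p, q, b') ∧ G.Adj p q ∧
    (∀ m < n, b'.ent m = b.ent m) ∧ t = {(p, b'), (q, b'), (r, b)}}

end Pool.Agent.H54.TS
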