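import Mathlib
import Pool.Agent.H54.TS.Defs

set_option autoImplicit false

universe u v w

namespace Pool.Agent.H54.TS

variable {Ω : Type u}

/-- The rank of a slice. -/
noncomputable def Sl.rk : Sl Ω → Ordinal.{u}
  | .base => 0
  | .node _ _ _ s => ⨆ n : ℕ, Order.succ (Sl.rk (s n))

theorem Sl.rk_lt {b b' : Sl Ω} {n : ℕ} {p q : Ω} (h : b.ent n = some (p, q, b')) :
    b'.rk < b.rk := by
  cases b with
  | base => simp [Sl.ent] at h
  | node d p' q' s =>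
    simp only [Sl.ent] at h
    split_ifs at h with hd
    simp only [Option.some.injEq, Prod.mk.injEq] at h
    obtain ⟨-, -, rfl⟩ := h
    rw [Sl.rk]
    exact lt_of_lt_of_le (Order.lt_succ _)
      (Ordinal.le_iSup (fun n => Order.succ (Sl.rk (s n))) n)

theorem Sl.ne_of_ent {b b' : Sl Ω} {n : ℕ} {p q : Ω} (h : b.ent n = some (p, q, b')) :
    b' ≠ b := by
  rintro rfl
  exact lt_irrefl _ (Sl.rk_lt h)

/-- N3a -/
theorem slice_card (G : SimpleGraph Ω) : ∀ t ∈ sliceTriples G, t.card = 3 := by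
  classical
  rintro t ⟨n, p, q, r, b', b, hb, hpq, -, rfl⟩
  have h1 := Sl.ne_of_ent hb
  have h2 := hpq.ne
  rw [Finset.card_eq_three]
  refine ⟨(p, b'), (q, b'), (r, b), ?_, ?_, ?_, ?_⟩
  · intro h; exact h2 (congrArg Prod.fst h)
  · intro h; exact h1 (congrArg Prod.snd h)
  · intro h; exact h1 (congrArg Prod.snd h)
  · ext x; simp

/-- The slice built from a list of entries. -/
noncomputable def mkSl [Nonempty Ω] (B : ℕ → Option (Ω × Ω × Sl Ω)) : Sl Ω :=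
  .node (fun n => (B n).isSome) (fun n => ((B n).map (fun e => e.1)).getD (Classical.arbitrary Ω))
    (fun n => ((B n).map (fun e => e.2.1)).getD (Classical.arbitrary Ω))
    (fun n => ((B n).map (fun e => e.2.2)).getD .base)

theorem ent_mkSl [Nonempty Ω] (B : ℕ → Option (Ω × Ω × Sl Ω)) (n : ℕ) :
    (mkSl B).ent n = B n := by
  unfold mkSl Sl.ent
  cases h : B n with
  | none => simp [h]
  | some e => simp [h]

open Classical in
/-- The diagonal sequence. -/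
noncomputable def diag (G : SimpleGraph Ω) (f : Ω × Sl Ω → ℕ) : ℕ → Option (Ω × Ω × Sl Ω)
  | n =>
    if h : ∃ e : Ω × Ω × Sl Ω, G.Adj e.1 e.2.1 ∧ f (e.1, e.2.2) = n ∧ f (e.2.1, e.2.2) = n ∧
        ∀ m : Fin n, e.2.2.ent m = diag G f m
    then some h.choose else none
termination_by n => n
decreasing_by exact m.2

theorem diag_spec (G : SimpleGraph Ω) (f : Ω × Sl Ω → ℕ) (n : ℕ) (e₀ : Ω × Ω × Sl Ω)
    (h1 : G.Adj e₀.1 e₀.2.1) (h2 : f (e₀.1, e₀.2.2) = n) (h3 : f (e₀.2.1, e₀.2.2) = n)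
    (h4 : ∀ m < n, e₀.2.2.ent m = diag G f m) :
    ∃ e : Ω × Ω × Sl Ω, diag G f n = some e ∧ G.Adj e.1 e.2.1 ∧ f (e.1, e.2.2) = n ∧
      f (e.2.1, e.2.2) = n ∧ ∀ m < n, e.2.2.ent m = diag G f m := by
  classical
  have h : ∃ e : Ω × Ω × Sl Ω, G.Adj e.1 e.2.1 ∧ f (e.1, e.2.2) = n ∧ f (e.2.1, e.2.2) = n ∧
        ∀ m : Fin n, e.2.2.ent m = diag G f m := ⟨e₀, h1, h2, h3, fun m => h4 m m.2⟩
  refine ⟨h.choose, ?_, h.choose_spec.1, h.choose_spec.2.1, h.choose_spec.2.2.1, fun m hm =>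
    h.choose_spec.2.2.2 ⟨m, hm⟩⟩
  rw [diag]
  simp only [h, dif_pos]

/-- N3b -/
theorem slice_unc (G : SimpleGraph Ω)
    (hG : ¬ ∃ c : Ω → ℕ, ∀ x y, G.Adj x y → c x ≠ c y) :
    TripleSystem.Unc ⟨sliceTriples G, slice_card G⟩ := by
  classical
  rintro ⟨f, hf⟩
  have hne : Nonempty Ω := by
    by_contra h
    exact hG ⟨fun _ => 0, fun x => (h ⟨x⟩).elim⟩
  set b : Sl Ω := mkSl (diag G f) with hb
  have hent : ∀ n, b.ent n = diag G f n := fun n => ent_mkSl _ _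
  apply hG
  refine ⟨fun p => f (p, b), fun p q hpq hcol => ?_⟩
  obtain ⟨e, he, hadj, he1, he2, hpre⟩ := diag_spec G f (f (p, b)) (p, q, b) hpq rfl hcol.symm
    (fun m _ => hent m)
  obtain ⟨p', q', b'⟩ := e
  refine hf {(p', b'), (q', b'), (p, b)} ⟨f (p, b), p', q', p, b', b, ?_, hadj, ?_, rfl⟩
    ⟨f (p, b), ?_⟩
  · rw [hent, he]
  · intro m hm
    rw [hpre m hm, hent]
  · intro x hx
    simp only [Finset.mem_insert, Finset.mem_singleton] at hx
    rcases hx with rfl | rfl | rfl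
    · exact he1
    · exact he2
    · rfl

end Pool.Agent.H54.TS
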