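import Mathlib
import Pool.Agent.H54.TS.Defs
import Pool.Agent.H54.TS.N3

set_option autoImplicit false

universe u v w

namespace Pool.Agent.H54.TS

section

open Classical

variable {Ω : Type u} (G : SimpleGraph Ω) {W : Type v} (φ : W ↪ Ω × Sl Ω)

/-- `t = {x, y, z}` with `x, y` adjacent in one slice. -/
def Pair (t : Finset W) (x y z : W) : Prop :=
  x ≠ y ∧ x ≠ z ∧ y ≠ z ∧ t = {x, y, z} ∧ (φ y).2 = (φ x).2 ∧ G.Adj (φ x).1 (φ y).1

/-- `t = {x, y, z}` is a triple of the slice system of level `n`. -/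
def Rep (t : Finset W) (n : ℕ) (x y z : W) : Prop :=
  Pair G φ t x y z ∧ (φ z).2.ent n = some ((φ x).1, (φ y).1, (φ x).2) ∧
    ∀ m < n, (φ x).2.ent m = (φ z).2.ent m

theorem rep_of_mem {t : Finset W} (ht : t.map φ ∈ sliceTriples G) :
    ∃ n x y z, Rep G φ t n x y z := by
  obtain ⟨n, p, q, r, b', b, hb, hpq, hpre, h⟩ := ht
  have h1 : (p, b') ∈ t.map φ := by rw [h]; simp
  have h2 : (q, b') ∈ t.map φ := by rw [h]; simp
  have h3 : (r, b) ∈ t.map φ := by rw [h]; simp
  obtain ⟨x, hx, hx'⟩ := Finset.mem_map.1 h1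
  obtain ⟨y, hy, hy'⟩ := Finset.mem_map.1 h2
  obtain ⟨z, hz, hz'⟩ := Finset.mem_map.1 h3
  have hne := Sl.ne_of_ent hb
  refine ⟨n, x, y, z, ⟨?_, ?_, ?_, ?_, ?_, ?_⟩, ?_, ?_⟩
  · rintro rfl
    rw [hx'] at hy'
    exact hpq.ne (congrArg Prod.fst hy')
  · rintro rfl
    rw [hx'] at hz'
    exact hne (congrArg Prod.snd hz')
  · rintro rfl
    rw [hy'] at hz'
    exact hne (congrArg Prod.snd hz')
  · apply Finset.map_injective φ
    rw [h, Finset.map_insert, Finset.map_insert, Finset.map_singleton, hx', hy', hz']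
  · rw [hx', hy']
  · rw [hx', hy']; exact hpq
  · rw [hx', hy', hz']; exact hb
  · intro m hm
    rw [hx', hz']
    exact hpre m hm

theorem slice_good_aux [Finite W]
    (hG : ∀ (H : SimpleGraph W) (ψ : W → Ω),
      (∀ x y, H.Adj x y → G.Adj (ψ x) (ψ y)) → ∃ c : W → Bool, ∀ x y, H.Adj x y → c x ≠ c y)
    (n : ℕ) : ∀ D₁ D₂ : Finset (Finset W), D₁.card = n → Disjoint D₁ D₂ →
      (∀ t ∈ D₁, t.map φ ∈ sliceTriples G) →
      (∀ t ∈ D₂, ∃ x y z, Pair G φ t x y z ∧ ∀ t' ∈ D₁ ∪ D₂, z ∈ t' → t' = t) →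
      Linear ((D₁ ∪ D₂ : Finset (Finset W)) : Set (Finset W)) →
      Good ((D₁ ∪ D₂ : Finset (Finset W)) : Set (Finset W)) := by
  induction n using Nat.strong_induction_on with
  | _ n ih =>
  intro D₁ D₂ hcard hdis h1 h2 hlin
  rcases D₁.eq_empty_or_nonempty with rfl | hne
  · -- base case
    apply Good.expansion
    rw [Finset.empty_union] at h2 hlin ⊢
    obtain ⟨c, hc⟩ := hG
      { Adj := fun x y => (φ y).2 = (φ x).2 ∧ G.Adj (φ x).1 (φ y).1
        symm := ⟨fun x y h => ⟨h.1.symm, h.2.symm⟩⟩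
        loopless := ⟨fun x h => G.loopless.irrefl _ h.2⟩ } (fun x => (φ x).1)
      (fun x y h => h.2)
    rcases isEmpty_or_nonempty W with hW | hW
    · exact ⟨fun _ => 0, fun t ht => (h2 t ht).elim fun x _ => (hW.false x).elim,
        fun t ht => (h2 t ht).elim fun x _ => (hW.false x).elim, hlin⟩
    choose! X Y Z hXYZ hpriv using h2
    refine ⟨fun w => if ∃ t ∈ D₂, Z t = w then 2 else if c w then 1 else 0, ?_, ?_, hlin⟩
    · intro t ht
      obtain ⟨hxy, hxz, hyz, rfl', hsl, hadj⟩ := hXYZ t ht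
      have hm : ∀ w, w ∈ t ↔ w ∈ ({X t, Y t, Z t} : Finset W) := fun w => by rw [← rfl']
      have hX : ¬ ∃ t' ∈ D₂, Z t' = X t := by
        rintro ⟨t', ht', h⟩
        have := hpriv t' ht' t ht (by rw [h, hm]; simp)
        subst this
        exact hxz h.symm
      have hY : ¬ ∃ t' ∈ D₂, Z t' = Y t := by
        rintro ⟨t', ht', h⟩
        have := hpriv t' ht' t ht (by rw [h, hm]; simp)
        subst this
        exact hyz h.symm
      have hZ : ∃ t' ∈ D₂, Z t' = Z t := ⟨t, ht, rfl⟩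
      have hcc : c (X t) ≠ c (Y t) := hc _ _ ⟨hsl, hadj⟩
      intro a ha b hb hab
      rw [Finset.mem_coe, hm] at ha hb
      simp only [Finset.mem_insert, Finset.mem_singleton] at ha hb
      simp only at hab
      rcases ha with rfl | rfl | rfl <;> rcases hb with rfl | rfl | rfl <;>
        simp only [hX, hY, hZ, if_true, if_false] at hab ⊢ <;>
        revert hab hcc <;> cases c (X t) <;> cases c (Y t) <;> simp
    · intro t ht t' ht' z hz hz' hr
      have hr' : ∃ t ∈ D₂, Z t = z := by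
        by_contra hcon
        simp only [hcon, if_false] at hr
        split_ifs at hr <;> simp at hr
      obtain ⟨t₀, ht₀, rfl⟩ := hr'
      rw [hpriv t₀ ht₀ t ht hz, hpriv t₀ ht₀ t' ht' hz']
  · -- step
    have hP : ∃ m, ∃ t ∈ D₁, ∃ x y z, Rep G φ t m x y z := by
      obtain ⟨t, ht⟩ := hne
      obtain ⟨m, x, y, z, h⟩ := rep_of_mem G φ (h1 t ht)
      exact ⟨m, t, ht, x, y, z, h⟩
    set n₀ := Nat.find hP with hn₀
    have hmin : ∀ t ∈ D₁, ∀ m x y z, Rep G φ t m x y z → n₀ ≤ m := fun t ht m x y z h =>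
      Nat.find_min' hP ⟨t, ht, x, y, z, h⟩
    obtain ⟨x₀, ⟨t₀, ht₀, y₀, z₀, hrep₀⟩, hmax⟩ :=
      Set.exists_max_image {x : W | ∃ t ∈ D₁, ∃ y z, Rep G φ t n₀ x y z}
        (fun x => (φ x).2.rk) (Set.toFinite _) (by
          obtain ⟨t, ht, x, y, z, h⟩ := Nat.find_spec hP
          exact ⟨x, t, ht, y, z, h⟩)
    obtain ⟨hpair₀, hent₀, hpre₀⟩ := hrep₀
    obtain ⟨hxy₀, hxz₀, hyz₀, htt₀, hsl₀, hadj₀⟩ := id hpair₀
    set C : W → Prop := fun w => (∀ m < n₀, (φ w).2.ent m = (φ z₀).2.ent m) ∧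
      (φ w).2.ent n₀ = some ((φ x₀).1, (φ y₀).1, (φ x₀).2) with hC
    have hCz : C z₀ := ⟨fun _ _ => rfl, hent₀⟩
    have hCx : ¬ C x₀ := fun h => Sl.ne_of_ent h.2 rfl
    have hCy : ¬ C y₀ := by
      intro h
      have := h.2
      rw [hsl₀] at this
      exact Sl.ne_of_ent this rfl
    have hCsl : ∀ x y, (φ y).2 = (φ x).2 → (C x ↔ C y) := by
      intro x y h
      simp only [hC, h]
    -- crossing
    have hcross : ∀ t ∈ D₁, t ≠ t₀ → (∃ w ∈ t, C w) → ∀ w ∈ t, C w := by
      intro t ht htne hw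
      obtain ⟨m, x, y, z, hpair, hent, hpre⟩ := rep_of_mem G φ (h1 t ht)
      have hm := hmin t ht m x y z ⟨hpair, hent, hpre⟩
      obtain ⟨hxy, hxz, hyz, htt, hsl, hadj⟩ := id hpair
      have hCxy := hCsl x y hsl
      have hiff : C x ↔ C z := by
        rcases hm.lt_or_eq with hlt | heq
        · simp only [hC]
          rw [hpre n₀ hlt]
          constructor
          · rintro ⟨h, h'⟩
            exact ⟨fun k hk => by rw [← hpre k (hk.trans hlt)]; exact h k hk, h'⟩
          · rintro ⟨h, h'⟩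
            exact ⟨fun k hk => by rw [hpre k (hk.trans hlt)]; exact h k hk, h'⟩
        · have hnz : ¬ C z := by
            intro h
            have h3 := h.2
            rw [heq, hent] at h3
            simp only [Option.some.injEq, Prod.mk.injEq] at h3
            obtain ⟨e1, e2, e3⟩ := h3
            have ex : x = x₀ := φ.injective (Prod.ext e1 e3)
            have ey : y = y₀ := φ.injective (Prod.ext e2 (by rw [hsl, e3, hsl₀]))
            apply htne
            refine hlin t (by simp [ht]) t₀ (by simp [ht₀]) x₀ y₀ hxy₀ ?_ ?_ ?_ ?_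
            · rw [htt, ex]; simp
            · rw [htt, ey]; simp
            · rw [htt₀]; simp
            · rw [htt₀]; simp
          have hnx : ¬ C x := by
            intro h
            have h3 := Sl.rk_lt h.2
            have h4 := hmax x ⟨t, ht, y, z, by rw [heq]; exact ⟨hpair, hent, hpre⟩⟩
            exact absurd h3 (not_lt.2 h4)
          exact iff_of_false hnx hnz
      obtain ⟨w, hw1, hw2⟩ := hw
      have hall : C x ∧ C y ∧ C z := by
        rw [htt] at hw1
        simp only [Finset.mem_insert, Finset.mem_singleton] at hw1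
        rcases hw1 with rfl | rfl | rfl
        · exact ⟨hw2, hCxy.1 hw2, hiff.1 hw2⟩
        · exact ⟨hCxy.2 hw2, hw2, hiff.1 (hCxy.2 hw2)⟩
        · exact ⟨hiff.2 hw2, hCxy.1 (hiff.2 hw2), hw2⟩
      intro w' hw'
      rw [htt] at hw'
      simp only [Finset.mem_insert, Finset.mem_singleton] at hw'
      rcases hw' with rfl | rfl | rfl
      · exact hall.1
      · exact hall.2.1
      · exact hall.2.2
    -- the pieces
    set A₁ := D₁.filter (fun t => t ≠ t₀ ∧ ∃ w ∈ t, C w) with hA₁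
    set B₁ := D₁.filter (fun t => t ≠ t₀ ∧ ¬ ∃ w ∈ t, C w) with hB₁
    set A₂ := D₂.filter (fun t => ∃ x y z, Pair G φ t x y z ∧
      (∀ t' ∈ D₁ ∪ D₂, z ∈ t' → t' = t) ∧ C x) with hA₂
    set B₂ := D₂.filter (fun t => ¬ ∃ x y z, Pair G φ t x y z ∧
      (∀ t' ∈ D₁ ∪ D₂, z ∈ t' → t' = t) ∧ C x) with hB₂
    have hmA₁ : ∀ t, t ∈ A₁ ↔ t ∈ D₁ ∧ t ≠ t₀ ∧ ∃ w ∈ t, C w := fun t => Finset.mem_filter
    have hmB₁ : ∀ t, t ∈ B₁ ↔ t ∈ D₁ ∧ t ≠ t₀ ∧ ¬ ∃ w ∈ t, C w := fun t => Finset.mem_filter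
    have hmA₂ : ∀ t, t ∈ A₂ ↔ t ∈ D₂ ∧ ∃ x y z, Pair G φ t x y z ∧
      (∀ t' ∈ D₁ ∪ D₂, z ∈ t' → t' = t) ∧ C x := fun t => Finset.mem_filter
    have hmB₂ : ∀ t, t ∈ B₂ ↔ t ∈ D₂ ∧ ¬ ∃ x y z, Pair G φ t x y z ∧
      (∀ t' ∈ D₁ ∪ D₂, z ∈ t' → t' = t) ∧ C x := fun t => Finset.mem_filter
    have hdis' : ∀ t, t ∈ D₁ → t ∉ D₂ := fun t h h' =>
      Finset.disjoint_left.1 hdis h h'
    have hsubA : ∀ t, t ∈ A₁ ∪ A₂ → t ∈ D₁ ∪ D₂ := by
      intro t ht
      rw [Finset.mem_union] at ht ⊢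
      rcases ht with ht | ht
      · exact Or.inl ((hmA₁ t).1 ht).1
      · exact Or.inr ((hmA₂ t).1 ht).1
    have hsubB : ∀ t, t ∈ B₁ ∪ (insert t₀ B₂) → t ∈ D₁ ∪ D₂ := by
      intro t ht
      rw [Finset.mem_union, Finset.mem_insert] at ht
      rw [Finset.mem_union]
      rcases ht with ht | rfl | ht
      · exact Or.inl ((hmB₁ t).1 ht).1
      · exact Or.inl ht₀
      · exact Or.inr ((hmB₂ t).1 ht).1
    have hlt : ∀ A ⊆ D₁, t₀ ∉ A → A.card < n := by
      intro A hA h
      rw [← hcard]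
      exact Finset.card_lt_card ⟨hA, fun h' => h (h' ht₀)⟩
    -- private representation for B₂
    have hB₂rep : ∀ t ∈ B₂, ∃ x y z, Pair G φ t x y z ∧
        (∀ t' ∈ D₁ ∪ D₂, z ∈ t' → t' = t) ∧ ¬ C x ∧ ¬ C y := by
      intro t ht
      obtain ⟨htD, hno⟩ := (hmB₂ t).1 ht
      obtain ⟨x, y, z, hp, hpr⟩ := h2 t htD
      have hx : ¬ C x := fun h => hno ⟨x, y, z, hp, hpr, h⟩
      exact ⟨x, y, z, hp, hpr, hx, fun h => hx ((hCsl x y hp.2.2.2.2.1).2 h)⟩
    have hA₂rep : ∀ t ∈ A₂, ∃ x y z, Pair G φ t x y z ∧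
        (∀ t' ∈ D₁ ∪ D₂, z ∈ t' → t' = t) ∧ C x ∧ C y := by
      intro t ht
      obtain ⟨htD, x, y, z, hp, hpr, hx⟩ := (hmA₂ t).1 ht
      exact ⟨x, y, z, hp, hpr, hx, (hCsl x y hp.2.2.2.2.1).1 hx⟩
    have hgoodA : Good ((A₁ ∪ A₂ : Finset (Finset W)) : Set (Finset W)) := by
      refine ih A₁.card (hlt A₁ (Finset.filter_subset _ _) ?_) A₁ A₂ rfl ?_ ?_ ?_ ?_
      · intro h
        exact ((hmA₁ t₀).1 h).2.1 rfl
      · rw [Finset.disjoint_left]
        intro t h h'
        exact hdis' t ((hmA₁ t).1 h).1 ((hmA₂ t).1 h').1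
      · intro t ht
        exact h1 t ((hmA₁ t).1 ht).1
      · intro t ht
        obtain ⟨x, y, z, hp, hpr, -, -⟩ := hA₂rep t ht
        exact ⟨x, y, z, hp, fun t' ht' => hpr t' (hsubA t' ht')⟩
      · intro t ht t' ht'
        exact hlin t (hsubA t ht) t' (hsubA t' ht')
    have hgoodB : Good ((B₁ ∪ insert t₀ B₂ : Finset (Finset W)) : Set (Finset W)) := by
      refine ih B₁.card (hlt B₁ (Finset.filter_subset _ _) ?_) B₁ (insert t₀ B₂) rfl ?_ ?_ ?_ ?_
      · intro h
        exact ((hmB₁ t₀).1 h).2.1 rfl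
      · rw [Finset.disjoint_left]
        intro t h h'
        rw [Finset.mem_insert] at h'
        rcases h' with rfl | h'
        · exact ((hmB₁ t).1 h).2.1 rfl
        · exact hdis' t ((hmB₁ t).1 h).1 ((hmB₂ t).1 h').1
      · intro t ht
        exact h1 t ((hmB₁ t).1 ht).1
      · intro t ht
        rw [Finset.mem_insert] at ht
        rcases ht with rfl | ht
        · refine ⟨x₀, y₀, z₀, hpair₀, ?_⟩
          intro t' ht' hz
          rw [Finset.mem_union, Finset.mem_insert] at ht'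
          rcases ht' with ht' | rfl | ht'
          · exact absurd ⟨z₀, hz, hCz⟩ ((hmB₁ t').1 ht').2.2
          · rfl
          · obtain ⟨x, y, z, hp, hpr, hx, hy⟩ := hB₂rep t' ht'
            rw [hp.2.2.2.1] at hz
            simp only [Finset.mem_insert, Finset.mem_singleton] at hz
            rcases hz with rfl | rfl | rfl
            · exact absurd hCz hx
            · exact absurd hCz hy
            · exact (hpr t (by simp [ht₀]) (by rw [htt₀]; simp)).symm
        · obtain ⟨x, y, z, hp, hpr, -, -⟩ := hB₂rep t ht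
          exact ⟨x, y, z, hp, fun t' ht' => hpr t' (hsubB t' ht')⟩
      · intro t ht t' ht'
        exact hlin t (hsubB t ht) t' (hsubB t' ht')
    have hunion : ((D₁ ∪ D₂ : Finset (Finset W)) : Set (Finset W)) =
        ((A₁ ∪ A₂ : Finset (Finset W)) : Set (Finset W)) ∪
        ((B₁ ∪ insert t₀ B₂ : Finset (Finset W)) : Set (Finset W)) := by
      rw [← Finset.coe_union, Finset.coe_inj]
      ext t
      constructor
      · intro ht
        rw [Finset.mem_union] at ht
        rcases ht with ht | ht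
        · by_cases h : t = t₀
          · subst h; simp
          · by_cases h' : ∃ w ∈ t, C w
            · have := (hmA₁ t).2 ⟨ht, h, h'⟩
              simp [this]
            · have := (hmB₁ t).2 ⟨ht, h, h'⟩
              simp [this]
        · by_cases h' : ∃ x y z, Pair G φ t x y z ∧
            (∀ t' ∈ D₁ ∪ D₂, z ∈ t' → t' = t) ∧ C x
          · have := (hmA₂ t).2 ⟨ht, h'⟩
            simp [this]
          · have := (hmB₂ t).2 ⟨ht, h'⟩
            simp [this]
      · intro ht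
        rw [Finset.mem_union] at ht
        rcases ht with ht | ht
        · exact hsubA t ht
        · exact hsubB t ht
    rw [hunion]
    refine Good.glue _ _ hgoodA hgoodB ?_
    have key : ∀ w, w ∈ support ((A₁ ∪ A₂ : Finset (Finset W)) : Set (Finset W)) →
        w ∈ support ((B₁ ∪ insert t₀ B₂ : Finset (Finset W)) : Set (Finset W)) → w = z₀ := by
      rintro w ⟨t, ht, hwt⟩ ⟨t', ht', hwt'⟩
      have ht'' := ht
      have ht''' := ht'
      rw [Finset.mem_coe, Finset.mem_union] at ht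
      rw [Finset.mem_coe, Finset.mem_union, Finset.mem_insert] at ht'
      -- claim A
      have hclA : C w ∨ (t ∈ A₂ ∧ ∀ t'' ∈ D₁ ∪ D₂, w ∈ t'' → t'' = t) := by
        rcases ht with ht | ht
        · obtain ⟨hD, hn, hw⟩ := (hmA₁ t).1 ht
          exact Or.inl (hcross t hD hn hw w hwt)
        · obtain ⟨x, y, z, hp, hpr, hx, hy⟩ := hA₂rep t ht
          rw [hp.2.2.2.1] at hwt
          simp only [Finset.mem_insert, Finset.mem_singleton] at hwt
          rcases hwt with rfl | rfl | rfl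
          · exact Or.inl hx
          · exact Or.inl hy
          · exact Or.inr ⟨ht, hpr⟩
      have hclB : ¬ C w ∨ w = z₀ ∨ (t' ∈ B₂ ∧ ∀ t'' ∈ D₁ ∪ D₂, w ∈ t'' → t'' = t') := by
        rcases ht' with ht' | rfl | ht'
        · exact Or.inl fun h => ((hmB₁ t').1 ht').2.2 ⟨w, hwt', h⟩
        · rw [htt₀] at hwt'
          simp only [Finset.mem_insert, Finset.mem_singleton] at hwt'
          rcases hwt' with rfl | rfl | rfl
          · exact Or.inl hCx
          · exact Or.inl hCy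
          · exact Or.inr (Or.inl rfl)
        · obtain ⟨x, y, z, hp, hpr, hx, hy⟩ := hB₂rep t' ht'
          rw [hp.2.2.2.1] at hwt'
          simp only [Finset.mem_insert, Finset.mem_singleton] at hwt'
          rcases hwt' with rfl | rfl | rfl
          · exact Or.inl hx
          · exact Or.inl hy
          · exact Or.inr (Or.inr ⟨ht', hpr⟩)
      rcases hclA with hcA | ⟨htA, hcA⟩
      · rcases hclB with hcB | hcB | ⟨htB, hcB⟩
        · exact absurd hcA hcB
        · exact hcB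
        · exfalso
          have := hcB t (hsubA t ht'') hwt
          subst this
          rcases ht with ht | ht
          · exact hdis' t ((hmA₁ t).1 ht).1 ((hmB₂ t).1 htB).1
          · exact ((hmB₂ t).1 htB).2 ((hmA₂ t).1 ht).2
      · exfalso
        have := hcA t' (hsubB t' ht''') hwt'
        subst this
        rcases ht' with ht' | rfl | ht'
        · exact hdis' t' ((hmB₁ t').1 ht').1 ((hmA₂ t').1 htA).1
        · exact hdis' _ ht₀ ((hmA₂ _).1 htA).1
        · exact ((hmB₂ t').1 ht').2 ((hmA₂ t').1 htA).2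
    rintro w ⟨hw1, hw2⟩ w' ⟨hw1', hw2'⟩
    rw [key w hw1 hw2, key w' hw1' hw2']

/-- N4 -/
theorem slice_good {Ω : Type u} (G : SimpleGraph Ω) {W : Type v} [Finite W]
    (hG : ∀ (H : SimpleGraph W) (φ : W → Ω),
      (∀ x y, H.Adj x y → G.Adj (φ x) (φ y)) → ∃ c : W → Bool, ∀ x y, H.Adj x y → c x ≠ c y)
    (F : TripleSystem W) (hF : Linear F.triples)
    (φ : W ↪ Ω × Sl Ω) (hφ : ∀ t ∈ F.triples, t.map φ ∈ sliceTriples G) : Good F.triples := by
  have hfin : F.triples.Finite := Set.toFinite _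
  have := slice_good_aux G φ hG _ hfin.toFinset ∅ rfl (Finset.disjoint_empty_right _)
    (fun t ht => hφ t (hfin.mem_toFinset.1 ht)) (by simp) (by simpa using hF)
  simpa using this

end

end Pool.Agent.H54.TS
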