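import Mathlib
import Pool.Agent.H54.TS.Defs

set_option autoImplicit false

universe u v w

namespace Pool.Agent.H54.TS

open Classical in
/-- P1' -/
theorem appears_of_grid {W : Type v} [Finite W] {V : Type u} (F : TripleSystem W)
    (hF : BipExp F.triples) (K : TripleSystem V) (_hV : Infinite V)
    (hK : ∀ N, HasGrid K N) : F.Appears K := by
  obtain ⟨r, hinj, hpriv, hlin⟩ := hF
  obtain ⟨n, ⟨e⟩⟩ := Finite.exists_equiv_fin W
  obtain ⟨a, b, c, habc, hK⟩ := hK (n + n)
  -- the vertices of each class of a triple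
  have hrep : ∀ t ∈ F.triples, ∃ x y z, t = {x, y, z} ∧ r x = 0 ∧ r y = 1 ∧ r z = 2 := by
    intro t ht
    have h3 := F.card_eq t ht
    have himg : t.image r = Finset.univ := by
      apply Finset.eq_univ_of_card
      rw [Finset.card_image_of_injOn (hinj t ht), h3, Fintype.card_fin]
    have hget : ∀ i : Fin 3, ∃ x ∈ t, r x = i := by
      intro i
      have : i ∈ t.image r := by rw [himg]; exact Finset.mem_univ _
      exact Finset.mem_image.1 this
    obtain ⟨x, hx, hx'⟩ := hget 0
    obtain ⟨y, hy, hy'⟩ := hget 1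
    obtain ⟨z, hz, hz'⟩ := hget 2
    refine ⟨x, y, z, ?_, hx', hy', hz'⟩
    symm
    apply Finset.eq_of_subset_of_card_le
    · intro w hw
      simp only [Finset.mem_insert, Finset.mem_singleton] at hw
      rcases hw with rfl | rfl | rfl <;> assumption
    · rw [h3]
      have hxy : x ≠ y := by rintro rfl; rw [hx'] at hy'; exact absurd hy' (by decide)
      have hxz : x ≠ z := by rintro rfl; rw [hx'] at hz'; exact absurd hz' (by decide)
      have hyz : y ≠ z := by rintro rfl; rw [hy'] at hz'; exact absurd hz' (by decide)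
      rw [Finset.card_eq_three.2 ⟨x, y, z, hxy, hxz, hyz, rfl⟩]
  rcases isEmpty_or_nonempty W with hW | hW
  · exact ⟨⟨fun w => (hW.false w).elim, fun w => (hW.false w).elim⟩, fun t ht => by
      obtain ⟨x, -⟩ := hrep t ht
      exact (hW.false x).elim⟩
  choose! X Y Z hXYZ hX hY hZ using hrep
  let L : Fin n → Fin (n + n) := Fin.castAdd n
  let R : Fin n → Fin (n + n) := Fin.natAdd n
  have hL : Function.Injective L := Fin.castAdd_injective n n
  have hR : Function.Injective R := Fin.natAdd_injective n n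
  have hLR : ∀ i j, L i ≠ R j := by
    intro i j h
    have := congrArg Fin.val h
    simp only [L, R, Fin.val_castAdd, Fin.val_natAdd] at this
    omega
  -- the code
  let code : W → Fin (n + n) ⊕ (Fin (n + n) ⊕ (Fin (n + n) × Fin (n + n))) := fun w =>
    if r w = 0 then Sum.inl (L (e w)) else
    if r w = 1 then Sum.inr (Sum.inl (L (e w))) else
    if h : ∃ t ∈ F.triples, w ∈ t then
      Sum.inr (Sum.inr (L (e (X h.choose)), L (e (Y h.choose))))
    else Sum.inl (R (e w))
  have hcode0 : ∀ w, r w = 0 → code w = Sum.inl (L (e w)) := fun w h => by simp [code, h]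
  have hcode1 : ∀ w, r w = 1 → code w = Sum.inr (Sum.inl (L (e w))) := fun w h => by
    simp [code, h]
  have hcode2 : ∀ w, r w = 2 → ∀ t ∈ F.triples, w ∈ t →
      code w = Sum.inr (Sum.inr (L (e (X t)), L (e (Y t)))) := by
    intro w h t ht hwt
    have hex : ∃ t ∈ F.triples, w ∈ t := ⟨t, ht, hwt⟩
    have : hex.choose = t := hpriv _ hex.choose_spec.1 t ht w hex.choose_spec.2 hwt h
    have h0 : ¬ r w = 0 := by rw [h]; decide
    have h1 : ¬ r w = 1 := by rw [h]; decide
    simp only [code, h0, h1, hex, if_false, dif_pos, this]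
  have hcode3 : ∀ w, r w = 2 → (¬ ∃ t ∈ F.triples, w ∈ t) → code w = Sum.inl (R (e w)) := by
    intro w h hex
    have h0 : ¬ r w = 0 := by rw [h]; decide
    have h1 : ¬ r w = 1 := by rw [h]; decide
    simp only [code, h0, h1, hex, if_false, dif_neg, not_false_eq_true]
  have hcases : ∀ w, (r w = 0 ∧ code w = Sum.inl (L (e w))) ∨
      (r w = 1 ∧ code w = Sum.inr (Sum.inl (L (e w)))) ∨
      (∃ t ∈ F.triples, w ∈ t ∧ r w = 2 ∧
        code w = Sum.inr (Sum.inr (L (e (X t)), L (e (Y t))))) ∨
      (code w = Sum.inl (R (e w))) := by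
    intro w
    have h3 : r w = 0 ∨ r w = 1 ∨ r w = 2 := by
      generalize r w = i
      fin_cases i <;> simp
    rcases h3 with h | h | h
    · exact Or.inl ⟨h, hcode0 w h⟩
    · exact Or.inr (Or.inl ⟨h, hcode1 w h⟩)
    · by_cases hex : ∃ t ∈ F.triples, w ∈ t
      · obtain ⟨t, ht, hwt⟩ := hex
        exact Or.inr (Or.inr (Or.inl ⟨t, ht, hwt, h, hcode2 w h t ht hwt⟩))
      · exact Or.inr (Or.inr (Or.inr (hcode3 w h hex)))
  have hXne : ∀ t ∈ F.triples, X t ≠ Y t := by
    intro t ht h
    have h0 := hX t ht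
    rw [h, hY t ht] at h0
    exact absurd h0 (by decide)
  have hmX : ∀ t ∈ F.triples, X t ∈ t := fun t ht => by
    have : X t ∈ ({X t, Y t, Z t} : Finset W) := by simp
    rw [← hXYZ t ht] at this
    exact this
  have hmY : ∀ t ∈ F.triples, Y t ∈ t := fun t ht => by
    have : Y t ∈ ({X t, Y t, Z t} : Finset W) := by simp
    rw [← hXYZ t ht] at this
    exact this
  have hmZ : ∀ t ∈ F.triples, Z t ∈ t := fun t ht => by
    have : Z t ∈ ({X t, Y t, Z t} : Finset W) := by simp
    rw [← hXYZ t ht] at this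
    exact this
  have hcinj : Function.Injective code := by
    intro w w' h
    rcases hcases w with ⟨h1, h2⟩ | ⟨h1, h2⟩ | ⟨t, ht, hwt, h1, h2⟩ | h2 <;>
    rcases hcases w' with ⟨h1', h2'⟩ | ⟨h1', h2'⟩ | ⟨t', ht', hwt', h1', h2'⟩ | h2' <;>
    rw [h2, h2'] at h
    · exact e.injective (hL (Sum.inl.inj h))
    · simp at h
    · simp at h
    · exact absurd (Sum.inl.inj h) (hLR _ _)
    · simp at h
    · exact e.injective (hL (Sum.inl.inj (Sum.inr.inj h)))
    · simp at h
    · simp at h
    · simp at h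
    · simp at h
    · have h3 := Sum.inr.inj (Sum.inr.inj h)
      have hx : X t = X t' := e.injective (hL (congrArg Prod.fst h3))
      have hy : Y t = Y t' := e.injective (hL (congrArg Prod.snd h3))
      have htt : t = t' := by
        refine hlin t ht t' ht' (X t) (Y t) (hXne t ht) (hmX t ht) (hmY t ht) ?_ ?_
        · rw [hx]; exact hmX t' ht'
        · rw [hy]; exact hmY t' ht'
      subst htt
      exact hinj t ht hwt hwt' (h1.trans h1'.symm)
    · simp at h
    · exact absurd (Sum.inl.inj h).symm (hLR _ _)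
    · simp at h
    · simp at h
    · exact e.injective (hR (Sum.inl.inj h))
  refine ⟨⟨fun w => Sum.elim a (Sum.elim b (fun p : Fin (n + n) × Fin (n + n) => c p.1 p.2)) (code w),
    habc.comp hcinj⟩, ?_⟩
  intro t ht
  have h1 := hK (L (e (X t))) (L (e (Y t)))
  have h2 : t.map ⟨fun w => Sum.elim a (Sum.elim b (fun p : Fin (n + n) × Fin (n + n) => c p.1 p.2)) (code w),
    habc.comp hcinj⟩ = {a (L (e (X t))), b (L (e (Y t))), c (L (e (X t))) (L (e (Y t)))} := by
    have h3 : t = {X t, Y t, Z t} := hXYZ t ht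
    ext v
    rw [Finset.mem_map]
    simp only [Function.Embedding.coeFn_mk, Finset.mem_insert, Finset.mem_singleton]
    have hcX := hcode0 (X t) (hX t ht)
    have hcY := hcode1 (Y t) (hY t ht)
    have hcZ := hcode2 (Z t) (hZ t ht) t ht (hmZ t ht)
    constructor
    · rintro ⟨w, hw, rfl⟩
      rw [h3] at hw
      simp only [Finset.mem_insert, Finset.mem_singleton] at hw
      rcases hw with rfl | rfl | rfl
      · left; rw [hcX]; rfl
      · right; left; rw [hcY]; rfl
      · right; right; rw [hcZ]; rfl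
    · rintro (rfl | rfl | rfl)
      · exact ⟨X t, hmX t ht, by rw [hcX]; rfl⟩
      · exact ⟨Y t, hmY t ht, by rw [hcY]; rfl⟩
      · exact ⟨Z t, hmZ t ht, by rw [hcZ]; rfl⟩
  rw [h2]
  exact h1

end Pool.Agent.H54.TS
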