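import Mathlib
import Pool.Agent.H54.TS.Defs

set_option autoImplicit false

universe u v w

namespace Pool.Agent.H54.TS

open Cardinal

/-- The identity is a proper colouring. -/
theorem proper_id {V : Type u} (K : TripleSystem V) : K.Proper (id : V → V) := by
  classical
  rintro t ht ⟨a, ha⟩
  have h3 := K.card_eq t ht
  obtain ⟨x, y, z, hxy, -, -, rfl⟩ := Finset.card_eq_three.mp h3
  have h1 := ha x (by simp)
  have h2 := ha y (by simp)
  exact hxy (h1.trans h2.symm)

/-- U0 -/
theorem unc_iff {V : Type u} (K : TripleSystem V) : K.UncountablyChromatic ↔ K.Unc := by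
  unfold TripleSystem.UncountablyChromatic TripleSystem.Unc TripleSystem.chromaticNumber
  constructor
  · rintro h ⟨c, hc⟩
    refine absurd h (not_lt.2 (csInf_le' ⟨ULift.{u} ℕ, by simp, fun x => ULift.up (c x), ?_⟩))
    rintro t ht ⟨a, ha⟩
    exact hc t ht ⟨a.down, fun x hx => by rw [← ha x hx]⟩
  · intro h
    by_contra hlt
    rw [not_lt] at hlt
    have hne : {κ | ∃ C : Type u, Cardinal.mk C = κ ∧ ∃ c : V → C, K.Proper c}.Nonempty :=
      ⟨Cardinal.mk V, V, rfl, id, proper_id K⟩
    obtain ⟨C, hC, c, hc⟩ := csInf_mem hne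
    have hcount : Countable C := by
      rw [← Cardinal.mk_le_aleph0_iff, hC]
      exact hlt
    obtain ⟨e, he⟩ := hcount.exists_injective_nat
    refine h ⟨fun x => e (c x), ?_⟩
    rintro t ht ⟨a, ha⟩
    have h3 := K.card_eq t ht
    have hne : t.Nonempty := by
      rw [← Finset.card_pos, h3]; norm_num
    obtain ⟨x0, hx0⟩ := hne
    exact hc t ht ⟨c x0, fun x hx => he ((ha x hx).trans (ha x0 hx0).symm)⟩

theorem infinite_of_unc {V : Type u} (K : TripleSystem V) (hK : K.Unc) : Infinite V := by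
  classical
  by_contra h
  rw [not_infinite_iff_finite] at h
  obtain ⟨n, ⟨e⟩⟩ := Finite.exists_equiv_fin V
  refine hK ⟨fun x => (e x : ℕ), fun t ht ⟨a, ha⟩ => ?_⟩
  have h3 := K.card_eq t ht
  obtain ⟨x, y, z, hxy, -, -, rfl⟩ := Finset.card_eq_three.mp h3
  have h1 := ha x (by simp)
  have h2 := ha y (by simp)
  exact hxy (e.injective (Fin.ext (h1.trans h2.symm)))

end Pool.Agent.H54.TS
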