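import Mathlib
import Pool.Agent.H54.TS.Defs
import Pool.Agent.H54.TS.U0
import Pool.Agent.H54.TS.N3
import Pool.Agent.H54.TS.N4
import Pool.Agent.H53.TS.P0
import Pool.Agent.H20.TS.N2
import Pool.Agent.H7.TS.N1
import Pool.Agent.H7.TS.P2
import Pool.Agent.H51.TS.P1
import Pool.Agent.H54.TS.P1p

/-! Assembly of the classification of forced finite triple systems. -/

set_option autoImplicit false

universe u v w

namespace Pool.Agent.H54.TS

/-- P1: every uncountably chromatic triple system contains all grids. -/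
theorem grid {V : Type u} (K : TripleSystem V) (hK : K.Unc) (N : ℕ) : HasGrid K N :=
  grid_of (fun H g h1 h2 h3 => eh_lemma H g h1 h2 h3) hK N

theorem good_forced {W : Type v} [Finite W] (D : Set (Finset W)) (hD : Good D)
    (h3 : ∀ t ∈ D, t.card = 3) (V : Type u) (K : TripleSystem V) (hK : K.Unc) :
    (⟨D, h3⟩ : TripleSystem W).Appears K := by
  induction hD generalizing V K with
  | expansion D hD =>
    exact appears_of_grid ⟨D, h3⟩ hD K (infinite_of_unc K hK) (grid K hK)
  | glue D₁ D₂ _ _ hs ih₁ ih₂ =>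
    exact appears_glue ⟨D₁ ∪ D₂, h3⟩ ⟨D₁, fun t ht => h3 t (Or.inl ht)⟩
      ⟨D₂, fun t ht => h3 t (Or.inr ht)⟩ rfl hs
      (fun V K hK => ih₁ _ V K hK) (fun V K hK => ih₂ _ V K hK) V K hK

/-- **Main theorem.** -/
theorem classification {W : Type v} [Finite W] (F : TripleSystem W) :
    TripleSystem.Forced.{u} F ↔ Good F.triples := by
  constructor
  · intro hF
    have hlin : Linear F.triples := by
      obtain ⟨V, K, hK, hL⟩ := exists_linear.{u}
      obtain ⟨φ, hφ⟩ := hF V K ((unc_iff K).2 hK)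
      intro t ht t' ht' x y hxy h1 h2 h3 h4
      have := hL _ (hφ t ht) _ (hφ t' ht') (φ x) (φ y) (fun h => hxy (φ.injective h))
        (Finset.mem_map_of_mem _ h1) (Finset.mem_map_of_mem _ h2)
        (Finset.mem_map_of_mem _ h3) (Finset.mem_map_of_mem _ h4)
      exact Finset.map_injective φ this
    obtain ⟨Ω, G, hG, hG2⟩ := exists_graph.{u, v} (Nat.card W)
    obtain ⟨φ, hφ⟩ := hF _ _ ((unc_iff _).2 (slice_unc G hG))
    exact slice_good G (fun H φ h => hG2 W H φ le_rfl h) F hlin φ hφ
  · intro hF V K hK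
    exact good_forced F.triples hF F.card_eq V K ((unc_iff K).1 hK)

end Pool.Agent.H54.TS
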